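import Mathlib

/-!
# There is an Ulrich partition of type (1,4,12)

The question of the problem has a negative answer: the partition
`(92 | 64, 63, 56, 55 | 54, 52, 50, 48, 38, 32, 22, 16, 6, 4, 2, 0)` of type `(1,4,12)`, of dimension
`64`, is Ulrich. It was found by a computer search.
-/

set_option autoImplicit false

namespace Pool.Agent.Results.MP_ff76d6_ag.TypeOneFourTwelve

variable {α β γ : ℕ}

/-- `(a 0, ..., a (α-1) | b 0, ..., b (β-1) | c 0, ..., c (γ-1))` is a partition of type
`(α,β,γ)`: a strictly decreasing sequence of integers split into three consecutive blocks. -/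
structure IsPartition (a : Fin α → ℤ) (b : Fin β → ℤ) (c : Fin γ → ℤ) : Prop where
  a_decreasing : StrictAnti a
  b_decreasing : StrictAnti b
  c_decreasing : StrictAnti c
  b_lt_a : ∀ i j, b j < a i
  c_lt_b : ∀ j k, c k < b j

/-- The sequence `P(t)`: subtract `2 t` from every entry of the first block, `t` from every entry of
the second block, and nothing from the third. -/
def shifted (a : Fin α → ℤ) (b : Fin β → ℤ) (c : Fin γ → ℤ) (t : ℤ) :
    Fin α ⊕ (Fin β ⊕ Fin γ) → ℤ :=
  Sum.elim (fun i => a i - 2 * t) (Sum.elim (fun j => b j - t) c)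

/-- The partition is Ulrich: for every `t` in `{1, ..., N}`, with `N = αβ + αγ + βγ` its dimension,
two entries (with different positions) of `P(t)` are equal. -/
def IsUlrich (a : Fin α → ℤ) (b : Fin β → ℤ) (c : Fin γ → ℤ) : Prop :=
  IsPartition a b c ∧ ∀ t : ℤ, 1 ≤ t → t ≤ α * β + α * γ + β * γ →
    ∃ x y, x ≠ y ∧ shifted a b c t x = shifted a b c t y

/-- The first block. -/
def a₀ : Fin 1 → ℤ := ![92]

/-- The second block. -/
def b₀ : Fin 4 → ℤ := ![64, 63, 56, 55]

/-- The third block. -/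
def c₀ : Fin 12 → ℤ := ![54, 52, 50, 48, 38, 32, 22, 16, 6, 4, 2, 0]

/-- The partition `(92 | 64, 63, 56, 55 | 54, 52, 50, 48, 38, 32, 22, 16, 6, 4, 2, 0)` of type
`(1,4,12)` is Ulrich. Hence the statement of Q1, that there is no Ulrich partition of type
`(α,β,γ)` with `β ≥ 3` and `γ ≥ 3`, is false, and it is false already for `α = 1`. -/
theorem result : IsUlrich a₀ b₀ c₀ ∧
    ¬ ∀ (α β γ : ℕ), 1 ≤ α → 3 ≤ β → 3 ≤ γ →
      ∀ (a : Fin α → ℤ) (b : Fin β → ℤ) (c : Fin γ → ℤ), ¬ IsUlrich a b c := by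
  have h : IsUlrich a₀ b₀ c₀ := by
    refine ⟨⟨?_, ?_, ?_, ?_, ?_⟩, ?_⟩
    · intro i j hij
      have := i.isLt
      have := j.isLt
      omega
    · have h1 : ∀ i j : Fin 4, i < j → b₀ j < b₀ i := by decide
      exact fun i j hij => h1 i j hij
    · have h1 : ∀ i j : Fin 12, i < j → c₀ j < c₀ i := by decide
      exact fun i j hij => h1 i j hij
    · decide
    · decide
    · have h1 : ∀ t ∈ Finset.Icc (1 : ℤ) 64, ∃ x y, x ≠ y ∧
          shifted a₀ b₀ c₀ t x = shifted a₀ b₀ c₀ t y := by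
        decide +kernel
      intro t ht1 ht2
      exact h1 t (Finset.mem_Icc.2 ⟨ht1, by norm_num at ht2; exact ht2⟩)
  exact ⟨h, fun hno => hno 1 4 12 le_rfl (by norm_num) (by norm_num) a₀ b₀ c₀ h⟩

end Pool.Agent.Results.MP_ff76d6_ag.TypeOneFourTwelve
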